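import Mathlib

namespace Pool.Agent.H.MP_09df17_pr

open Finset

abbrev V := ℤ × List Bool

def dl (n : ℕ) : ℤ := (-1) ^ n.sqrt

lemma dl_cases (n : ℕ) : dl n = 1 ∨ dl n = -1 := neg_one_pow_eq_or ℤ _

lemma dl_ne (n : ℕ) : dl n ≠ 0 := by rcases dl_cases n with h | h <;> omega

def sg (n : ℕ) : ℤ := (-1) ^ n.sqrt * (n - n.sqrt ^ 2 - n.sqrt)

lemma sg_succ (n : ℕ) : sg (n + 1) = sg n + dl n := by
  have h1 := Nat.sqrt_succ_le_succ_sqrt n
  have h2 := Nat.sqrt_le_sqrt (Nat.le_succ n)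
  unfold sg dl
  rcases h2.eq_or_lt with h | h
  · rw [← h]
    push_cast
    ring
  · have h3 : (n + 1).sqrt = n.sqrt + 1 := le_antisymm h1 h
    have h4 := Nat.sqrt_le' (n + 1)
    have h5 := Nat.lt_succ_sqrt' n
    rw [h3] at h4 ⊢
    have h6 : (n : ℤ) = (n.sqrt + 1) ^ 2 - 1 := by
      have : n + 1 = (n.sqrt + 1) ^ 2 := le_antisymm h5 h4
      have : (n : ℤ) + 1 = (n.sqrt + 1) ^ 2 := by exact_mod_cast this
      linarith
    generalize n.sqrt = m at *
    push_cast
    rw [h6]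
    ring

lemma sg_surj (j : ℤ) (N : ℕ) : ∃ n, N ≤ n ∧ sg n = j := by
  obtain ⟨m, h1, h2⟩ : ∃ m : ℕ, N + j.natAbs ≤ m ∧ Even m := ⟨2 * (N + j.natAbs), by omega, by simp⟩
  obtain ⟨n, hn⟩ : ∃ n : ℕ, (n : ℤ) = (m ^ 2 : ℕ) + m + j := ⟨(m ^ 2 + m + j).toNat, by
    rw [Int.toNat_of_nonneg (by nlinarith [neg_abs_le j, Int.natCast_natAbs j])]; simp⟩
  have h3 : m = n.sqrt := Nat.eq_sqrt'.mpr ⟨by omega, by
    rw [show (m + 1) ^ 2 = m ^ 2 + 2 * m + 1 by ring]; omega⟩
  refine ⟨n, by nlinarith [neg_abs_le j, Int.natCast_natAbs j], ?_⟩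
  rw [sg, ← h3, h2.neg_one_pow, hn]
  push_cast
  ring

def L : ℕ → Finset (List Bool)
  | 0 => {[]}
  | n + 1 => (univ ×ˢ L n).image fun p => p.1 :: p.2

lemma mem_L (n : ℕ) (x : List Bool) : x ∈ L n ↔ x.length = n := by
  induction n generalizing x with
  | zero => simp [L]
  | succ n ih => cases x <;> simp [L, ih, -Bool.exists_bool]

lemma card_L (n : ℕ) : (L n).card = 2 ^ n := by
  induction n with
  | zero => rfl
  | succ n ih =>
    rw [L, card_image_of_injective _ fun p q h => Prod.ext (List.cons.inj h).1 (List.cons.inj h).2]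
    simp [ih, pow_succ']

def up (v w : V) : Prop :=
  w.2.length = v.2.length + 1 ∧ ((w.1 = v.1 ∧ w.2.tail = v.2) ∨ w.1 = v.1 - dl v.2.length)

def G : SimpleGraph V where
  Adj v w := up v w ∨ up w v
  symm := ⟨fun _ _ => Or.symm⟩
  loopless := ⟨fun v h => by simp [up] at h⟩

def Up (l : ℤ) (x : List Bool) : Finset V :=
  {(l, true :: x), (l, false :: x)} ∪ (L (x.length + 1)).image fun y => (l - dl x.length, y)

def Dn (l : ℤ) : List Bool → Finset V
  | [] => ∅
  | _ :: y => insert (l, y) ((L y.length).image fun z => (l + dl y.length, z))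

lemma mem_Up (l x w) : w ∈ Up l x ↔ up (l, x) w := by
  obtain ⟨m, y⟩ := w
  rcases y with _ | ⟨b, y⟩
  · simp [Up, up, mem_L]
  · cases b <;> simp [Up, up, mem_L] <;> grind

lemma mem_Dn (l x w) : w ∈ Dn l x ↔ up w (l, x) := by
  obtain ⟨m, y⟩ := w
  rcases x with _ | ⟨b, x⟩
  · simp [Dn, up]
  · simp [Dn, up, mem_L]
    grind

instance : G.LocallyFinite := fun v =>
  Fintype.ofFinset (Up v.1 v.2 ∪ Dn v.1 v.2) fun w => by simp [mem_Up, mem_Dn, G]

lemma sum_nbr {M : Type} [AddCommMonoid M] (f : V → M) (l : ℤ) (x : List Bool) :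
    ∑ w ∈ G.neighborFinset (l, x), f w = f (l, true :: x) + f (l, false :: x) +
      ∑ y ∈ L (x.length + 1), f (l - dl x.length, y) + ∑ w ∈ Dn l x, f w := by
  rw [show G.neighborFinset (l, x) = Up l x ∪ Dn l x by ext; simp [mem_Up, mem_Dn, G],
    sum_union (disjoint_left.mpr fun w h1 h2 => by
      have := ((mem_Up _ _ _).mp h1).1
      have := ((mem_Dn _ _ _).mp h2).1
      simp only at *
      omega), Up, sum_union (by simp [dl_ne]), sum_pair (by simp),
    sum_image fun a _ b _ h => (Prod.ext_iff.mp h).2]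

lemma sum_Dn {M : Type} [AddCommMonoid M] (f : V → M) (l : ℤ) (b : Bool) (y : List Bool) :
    ∑ w ∈ Dn l (b :: y), f w = f (l, y) + ∑ z ∈ L y.length, f (l + dl y.length, z) := by
  rw [Dn, sum_insert (by simp [dl_ne]), sum_image fun a _ b _ h => (Prod.ext_iff.mp h).2]

lemma deg_nil (l : ℤ) : G.degree (l, []) = 4 := by
  rw [← G.card_neighborFinset_eq_degree, card_eq_sum_ones, sum_nbr]
  simp [Dn, card_L]

lemma deg_cons (l : ℤ) (b : Bool) (y : List Bool) :
    G.degree (l, b :: y) = 5 * 2 ^ y.length + 3 := by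
  rw [← G.card_neighborFinset_eq_degree, card_eq_sum_ones, sum_nbr, sum_Dn]
  simp [card_L]
  ring

lemma sum_L {M : Type} [Semiring M] (f : List Bool → M) (c : M) (n : ℕ)
    (h : ∀ y, y.length = n → f y = c) : ∑ y ∈ L n, f y = 2 ^ n * c := by
  rw [sum_congr rfl fun y hy => h y ((mem_L _ _).mp hy)]
  simp [card_L]

lemma adj_tail (l : ℤ) (b : Bool) (x : List Bool) : G.Adj (l, b :: x) (l, x) :=
  Or.inr ⟨rfl, Or.inl ⟨rfl, rfl⟩⟩

lemma conn : G.Connected := by
  have h1 : ∀ l x, G.Reachable (l, x) (l, []) := fun l x => by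
    induction x with
    | nil => rfl
    | cons b x ih => exact (adj_tail l b x).reachable.trans ih
  have h2 : ∀ l, G.Reachable (l + 1, []) (l, []) := fun l =>
    (show G.Adj (l + 1, []) (l, [true]) from Or.inl ⟨rfl, Or.inr (by simp [dl])⟩).reachable.trans
      (h1 _ _)
  have h3 : ∀ l, G.Reachable (l, []) (0, []) := fun l => by
    induction l using Int.induction_on with
    | zero => rfl
    | succ i ih => exact (h2 i).trans ih
    | pred i ih => exact (by simpa using (h2 (-i - 1)).symm : G.Reachable _ _).trans ih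
  exact ⟨fun v w => ((h1 _ _).trans (h3 _)).trans ((h1 _ _).trans (h3 _)).symm⟩

lemma connD : (G.induce {v | v.1 = 0}).Connected := by
  have h1 : ∀ x, (G.induce {v : V | v.1 = 0}).Reachable ⟨(0, x), rfl⟩ ⟨(0, []), rfl⟩ := fun x => by
    induction x with
    | nil => rfl
    | cons b x ih => exact (SimpleGraph.Adj.reachable (by exact adj_tail 0 b x)).trans ih
  have : Nonempty {v : V | v.1 = 0} := ⟨⟨(0, []), rfl⟩⟩
  refine ⟨?_⟩
  rintro ⟨⟨l, x⟩, rfl : l = 0⟩ ⟨⟨m, y⟩, rfl : m = 0⟩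
  exact (h1 x).trans (h1 y).symm

lemma liou (f : V → ℝ) (C : ℝ) (hC : ∀ v, |f v| ≤ C) (hi : ∀ l x, f (l, x) = f (0, x))
    (hf : ∀ v, f v = (∑ w ∈ G.neighborFinset v, f w) / G.degree v) (v : V) : f v = f (0, []) := by
  have h0 : f (0, []) * 4 = f (0, [true]) + f (0, [false]) + ∑ y ∈ L 1, f (0, y) := by
    have := hf (0, [])
    rw [eq_div_iff (by simp [deg_nil]), sum_nbr, deg_nil] at this
    simpa [hi, Dn] using this
  have h1 : ∀ b y, f (0, b :: y) * (5 * 2 ^ y.length + 3) = f (0, true :: b :: y) +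
      f (0, false :: b :: y) + ∑ z ∈ L (y.length + 2), f (0, z) +
        (f (0, y) + ∑ z ∈ L y.length, f (0, z)) := fun b y => by
    have := hf (0, b :: y)
    rw [eq_div_iff (by rw [deg_cons]; positivity), sum_nbr, sum_Dn, deg_cons] at this
    simpa [hi] using this
  have : Nonempty {p : List Bool × List Bool // p.1.length = p.2.length} := ⟨⟨([], []), rfl⟩⟩
  let S := ⨆ p : {p : List Bool × List Bool // p.1.length = p.2.length}, f (0, p.1.1) - f (0, p.1.2)
  have h2 : ∀ x y, x.length = y.length → f (0, x) - f (0, y) ≤ S := fun x y h =>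
    le_ciSup (f := fun p : {p : List Bool × List Bool // p.1.length = p.2.length} =>
      f (0, p.1.1) - f (0, p.1.2)) ⟨C + C, by
        rintro _ ⟨p, rfl⟩
        linarith [(abs_le.mp (hC (0, p.1.1))).2, (abs_le.mp (hC (0, p.1.2))).1]⟩ ⟨(x, y), h⟩
  have h3 : 0 ≤ S := by simpa using h2 [] [] rfl
  have h4 : S ≤ 3 / 8 * S := ciSup_le fun ⟨(x, y), h⟩ => by
    rcases x with _ | ⟨b, x⟩ <;> rcases y with _ | ⟨c, y⟩ <;> simp at h ⊢
    · exact h3
    have a1 := h1 b x
    have a2 := h1 c y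
    rw [h] at a1
    have a3 : (1 : ℝ) ≤ 2 ^ y.length := one_le_pow₀ one_le_two
    by_contra hc
    nlinarith [h2 (true :: b :: x) (true :: c :: y) (by simp [h]), h2 x y h,
      h2 (false :: b :: x) (false :: c :: y) (by simp [h])]
  have h5 : ∀ x, f (0, x) = f (0, List.replicate x.length true) := fun x => by
    linarith [h2 x (List.replicate x.length true) (by simp), h2 (List.replicate x.length true) x (by simp)]
  have h6 : ∀ n, ∑ z ∈ L n, f (0, z) = 2 ^ n * f (0, List.replicate n true) := fun n =>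
    sum_L _ _ n fun y hy => hy ▸ h5 y
  have h7 : ∀ n, f (0, List.replicate (n + 1) true) = f (0, List.replicate n true) := fun n => by
    induction n with
    | zero =>
      rw [h6, h5 [false]] at h0
      simp at h0 ⊢
      linarith
    | succ n ih =>
      have := h1 true (List.replicate n true)
      rw [h6, h6, h5 (false :: _)] at this
      simp only [List.length_replicate, List.length_cons, ← List.replicate_succ, ih] at this
      have a3 : (0 : ℝ) < 2 + 2 ^ (n + 2) := by positivity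
      refine mul_left_cancel₀ a3.ne' ?_
      rw [ih]
      linear_combination -this
  rw [hi v.1 v.2, h5]
  induction v.2.length with
  | zero => rfl
  | succ n ih => rw [h7, ih]

noncomputable def g : ℕ → ℝ
  | 0 => 0
  | 1 => 1
  | n + 2 => ((5 * 2 ^ n + 3) * g (n + 1) - (2 ^ n - 1) * g n) / (4 * 2 ^ n - 2)

lemma g_rec (n : ℕ) : (4 * 2 ^ n - 2) * g (n + 2) = (5 * 2 ^ n + 3) * g (n + 1) - (2 ^ n - 1) * g n := by
  have : (1 : ℝ) ≤ 2 ^ n := one_le_pow₀ one_le_two
  rw [g, mul_div_cancel₀ _ (by linarith)]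

lemma g_bd (n : ℕ) : 0 ≤ g (n + 1) ∧ g (n + 1) ≤ g (n + 2) ∧
    2 ^ n * (g (n + 2) - g (n + 1)) ≤ 6 * g (n + 1) ∧ g (n + 1) ≤ Real.exp (12 - 12 / 2 ^ n) := by
  induction n with
  | zero => norm_num [g]
  | succ n ih =>
    obtain ⟨h1, h2, h3, h4⟩ := ih
    have a1 : (1 : ℝ) ≤ 2 ^ n := one_le_pow₀ one_le_two
    have a2 := g_rec (n + 1)
    rw [pow_succ] at a2 ⊢
    have a3 : g (n + 2) ≤ g (n + 3) := by
      by_contra hc
      nlinarith
    refine ⟨by linarith, a3, by nlinarith, ?_⟩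
    have a4 : g (n + 2) ≤ (6 / 2 ^ n + 1) * g (n + 1) := by
      rw [← le_div_iff₀' (by positivity), mul_div_right_comm] at h3
      linarith
    refine a4.trans ((mul_le_mul (Real.add_one_le_exp _) h4 h1 (Real.exp_pos _).le).trans_eq ?_)
    rw [← Real.exp_add]
    congr 1
    field_simp
    ring

noncomputable def h (v : V) : ℝ := (-1) ^ (v.1 + v.2.length) * g v.2.length

lemma h_bd (v : V) : |h v| ≤ Real.exp 12 := by
  rw [h, abs_mul, abs_neg_one_zpow, one_mul]
  rcases v.2.length with _ | n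
  · simp [g, Real.exp_nonneg]
  · obtain ⟨h1, -, -, h2⟩ := g_bd n
    rw [abs_of_nonneg h1]
    exact h2.trans (Real.exp_le_exp.mpr (sub_le_self _ (by positivity)))

lemma h_harm (v : V) : h v = (∑ w ∈ G.neighborFinset v, h w) / G.degree v := by
  have e1 : ∀ n, (-1 : ℝ) ^ dl n = -1 := fun n => by rcases dl_cases n with h | h <;> simp [h]
  have e2 : ∀ (l : ℤ) x, h (l, x) = (-1) ^ l * (-1) ^ x.length * g x.length := fun l x => by
    simp [h, zpow_add₀]
  obtain ⟨l, _ | ⟨b, y⟩⟩ := v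
  · rw [sum_nbr, sum_L _ ((-1) ^ l * g 1) _ fun y hy => by simp [e2, hy, zpow_sub₀, e1, div_neg]]
    simp [e2, g, Dn]
    ring
  · rw [eq_div_iff (by rw [deg_cons]; positivity), sum_nbr, sum_Dn, deg_cons,
      sum_L _ (-(-1) ^ l * (-1) ^ y.length * g (y.length + 2)) _ fun y hy => by
        simp [e2, hy, zpow_sub₀, e1, pow_succ, div_neg],
      sum_L _ (-(-1) ^ l * (-1) ^ y.length * g y.length) _ fun y hy => by
        simp [e2, hy, zpow_add₀, e1]]
    simp only [e2, List.length_cons]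
    push_cast
    linear_combination ((-1) ^ l * (-1) ^ y.length) * g_rec y.length

end Pool.Agent.H.MP_09df17_pr
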